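import Pool.Agent.Helper37.Sign.Zeta

set_option autoImplicit false

namespace Pool.Agent.Results.MP_56c18a_ag.Orthosymplectic

open Polynomial Module Pool.Agent.Helper17.Sign Pool.Agent.Helper37.Sign

/-- The algebraic self-correspondences of degree `0` of a smooth proper variety `X`, acting on the
even part `Vp` and the odd part `Vm` of its cohomology, with Poincaré duality. -/
structure DualCorrAlgebra (F Vp Vm : Type*) [Field F] [AddCommGroup Vp] [Module F Vp]
    [AddCommGroup Vm] [Module F Vm] where
  /-- the algebraic classes -/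
  carrier : Subring (Module.End F Vp × Module.End F Vm)
  smul_mem : ∀ (q : ℚ) (u : Module.End F Vp × Module.End F Vm), u ∈ carrier → (q : F) • u ∈ carrier
  trace_rat : ∀ u ∈ carrier, ∃ q : ℚ, LinearMap.trace F Vp u.1 - LinearMap.trace F Vm u.2 = (q : F)
  /-- the Poincaré pairing on even cohomology -/
  pairP : Vp →ₗ[F] Vp →ₗ[F] F
  /-- the Poincaré pairing on odd cohomology -/
  pairM : Vm →ₗ[F] Vm →ₗ[F] F
  symmP : ∀ x y, pairP x y = pairP y x
  altM : ∀ x y, pairM x y = - pairM y x
  ndP : ∀ x, (∀ y, pairP x y = 0) → x = 0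
  ndM : ∀ x, (∀ y, pairM x y = 0) → x = 0
  /-- the transpose of an algebraic correspondence is algebraic, and it is the adjoint -/
  transpose : ∀ u ∈ carrier, ∃ v ∈ carrier, (∀ x y, pairP (u.1 x) y = pairP x (v.1 y)) ∧
    ∀ x y, pairM (u.2 x) y = pairM x (v.2 y)

variable {F Vp Vm : Type*} [Field F] [CharZero F] [AddCommGroup Vp] [Module F Vp]
  [FiniteDimensional F Vp] [AddCommGroup Vm] [Module F Vm] [FiniteDimensional F Vm]

/-- `C⁺`: the even Künneth projector is algebraic. -/
def DualCorrAlgebra.CPlus (A : DualCorrAlgebra F Vp Vm) : Prop :=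
  ((1 : Module.End F Vp), (0 : Module.End F Vm)) ∈ A.carrier

/-- `u` is symmetric: it equals its transpose. -/
def DualCorrAlgebra.Symmetric (A : DualCorrAlgebra F Vp Vm)
    (u : Module.End F Vp × Module.End F Vm) : Prop :=
  (∀ x y, A.pairP (u.1 x) y = A.pairP x (u.1 y)) ∧ ∀ x y, A.pairM (u.2 x) y = A.pairM x (u.2 y)

/-- Every common root of `p` and `q` (in an algebraic closure) is a simple root of `p`. -/
def SimpleCommon (p q : F[X]) : Prop :=
  ∀ α : AlgebraicClosure F, aeval α p = 0 → aeval α q = 0 → aeval α (derivative p) ≠ 0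

/-- `s n` (`n ≥ 1`) is the alternating trace of the `n`-th power of `u`: the intersection number
of `uⁿ` with the diagonal. -/
def IsTraceSeq (u : Module.End F Vp × Module.End F Vm) (s : ℕ → ℚ) : Prop :=
  ∀ n, 1 ≤ n → LinearMap.trace F Vp (u.1 ^ n) - LinearMap.trace F Vm (u.2 ^ n) = (s n : F)

/-! ### proofs -/

omit [CharZero F] [FiniteDimensional F Vp] [FiniteDimensional F Vm] in
lemma aeval_rat_mem [CharZero F] (A : DualCorrAlgebra F Vp Vm)
    {u : Module.End F Vp × Module.End F Vm} (hu : u ∈ A.carrier) (q : ℚ[X]) :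
    aeval u (q.map (algebraMap ℚ F)) ∈ A.carrier := by
  rw [Polynomial.aeval_eq_sum_range' (n := q.natDegree + 1)
      (by rw [Polynomial.natDegree_map]; omega)]
  refine sum_mem fun i _ => ?_
  rw [Polynomial.coeff_map]
  exact A.smul_mem _ _ (pow_mem hu i)

omit [CharZero F] in
/-- the setting over the algebraic closure -/
lemma setting (A : DualCorrAlgebra F Vp Vm) :
    Setting (bcForm (AlgebraicClosure F) A.pairP) (bcForm (AlgebraicClosure F) A.pairM)
      (algK (AlgebraicClosure F) A.carrier) :=
  setting_algK A.carrier A.pairP A.pairM A.symmP A.altM A.ndP A.ndM A.transpose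

lemma cplus_of_algK (A : DualCorrAlgebra F Vp Vm)
    (h : ((1 : Module.End (AlgebraicClosure F) (TensorProduct F (AlgebraicClosure F) Vp)),
      (0 : Module.End (AlgebraicClosure F) (TensorProduct F (AlgebraicClosure F) Vm))) ∈
        algK (AlgebraicClosure F) A.carrier) : A.CPlus :=
  descent A.carrier A.smul_mem A.trace_rat h

omit [CharZero F] in
lemma isRoot_bc_iff {V : Type*} [AddCommGroup V] [Module F V] [FiniteDimensional F V]
    (f : Module.End F V) (α : AlgebraicClosure F) :
    (f.baseChange (AlgebraicClosure F)).charpoly.IsRoot α ↔ aeval α f.charpoly = 0 := by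
  rw [LinearMap.charpoly_baseChange, IsRoot, eval_map_algebraMap]

omit [CharZero F] in
lemma rootMultiplicity_bc {V : Type*} [AddCommGroup V] [Module F V] [FiniteDimensional F V]
    (f : Module.End F V) (α : AlgebraicClosure F) [DecidableEq (AlgebraicClosure F)] :
    (f.baseChange (AlgebraicClosure F)).charpoly.rootMultiplicity α = (eig f).count α := by
  rw [LinearMap.charpoly_baseChange, eig, Polynomial.count_roots]

omit [CharZero F] in
lemma simple_bc {V W : Type*} [AddCommGroup V] [Module F V] [FiniteDimensional F V]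
    [AddCommGroup W] [Module F W] [FiniteDimensional F W]
    (f : Module.End F V) (g : Module.End F W) (h : SimpleCommon f.charpoly g.charpoly)
    (α : AlgebraicClosure F) (h1 : (f.baseChange (AlgebraicClosure F)).charpoly.IsRoot α)
    (h2 : (g.baseChange (AlgebraicClosure F)).charpoly.IsRoot α) :
    (f.baseChange (AlgebraicClosure F)).charpoly.rootMultiplicity α = 1 := by
  have h3 := h α ((isRoot_bc_iff f α).mp h1) ((isRoot_bc_iff g α).mp h2)
  have hne := (LinearMap.charpoly_monic (f.baseChange (AlgebraicClosure F))).ne_zero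
  have h4 := (Polynomial.rootMultiplicity_pos hne).mpr h1
  have h5 : ¬ 1 < (f.baseChange (AlgebraicClosure F)).charpoly.rootMultiplicity α := by
    rw [Polynomial.one_lt_rootMultiplicity_iff_isRoot hne]
    rintro ⟨-, h6⟩
    rw [LinearMap.charpoly_baseChange, Polynomial.derivative_map, IsRoot,
      eval_map_algebraMap] at h6
    exact h3 h6
  omega

omit [CharZero F] in
lemma eq_of_root {V : Type*} [AddCommGroup V] [Module F V] [FiniteDimensional F V] (c : F)
    {α : AlgebraicClosure F} (hc : aeval α (c • (1 : Module.End F V)).charpoly = 0) :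
    α = algebraMap F _ c := by
  rw [← isRoot_bc_iff, ← Module.End.hasEigenvalue_iff_isRoot_charpoly] at hc
  obtain ⟨v, hv⟩ := hc.exists_hasEigenvector
  have h3 := hv.apply_eq_smul
  have h4 : ((c • (1 : Module.End F V)).baseChange (AlgebraicClosure F)) v =
      (algebraMap F (AlgebraicClosure F) c) • v := by
    rw [LinearMap.baseChange_smul]
    have : (1 : Module.End F V).baseChange (AlgebraicClosure F) = 1 :=
      map_one (Module.End.baseChangeHom F (AlgebraicClosure F) V)
    rw [this]
    simp
  exact smul_left_injective _ hv.2 (h3.symm.trans h4)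

/-- the spectral condition -/
lemma cplus_of_spectral (A : DualCorrAlgebra F Vp Vm) {u w : Module.End F Vp × Module.End F Vm}
    (hu : u ∈ A.carrier) (hw : w ∈ A.carrier) (hsym : A.Symmetric u)
    (h1 : SimpleCommon u.1.charpoly u.2.charpoly) (h2 : SimpleCommon w.2.charpoly w.1.charpoly) :
    A.CPlus := by
  apply cplus_of_algK
  refine (setting A).core (bc_mem A.carrier hu) (bc_mem A.carrier hw) ⟨?_, ?_⟩ ?_ ?_
  · exact fun x y => bcForm_adj A.pairP u.1 u.1 hsym.1 x y
  · exact fun x y => bcForm_adj A.pairM u.2 u.2 hsym.2 x y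
  · exact fun α ha hb => simple_bc u.1 u.2 h1 α ha hb
  · exact fun β ha hb => simple_bc w.2 w.1 h2 β ha hb

open Classical in
/-- the numerical condition -/
lemma cplus_of_numeric (A : DualCorrAlgebra F Vp Vm) {w : Module.End F Vp × Module.End F Vm}
    (hw : w ∈ A.carrier) (s : ℕ → ℚ) (hs : IsTraceSeq w s) (P Q : ℚ[X]) (hz : IsZeta s P Q)
    (hdeg : finrank F Vp + finrank F Vm ≤ P.natDegree + Q.natDegree + 2)
    (hQ : Even Q.natDegree ∨ ∀ x : ℚ, Q.eval x ≠ 0) : A.CPlus := by
  set K := AlgebraicClosure F with hK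
  have hmem : ∀ β : K, (bc K w).1.charpoly.IsRoot β → (bc K w).2.charpoly.IsRoot β →
      β ∈ eig w.1 ∩ eig w.2 := by
    intro β h1 h2
    rw [Multiset.mem_inter, mem_eig, mem_eig]
    exact ⟨(isRoot_bc_iff w.1 β).mp h1, (isRoot_bc_iff w.2 β).mp h2⟩
  rcases zeta_common w.1 w.2 s hs P Q hz hdeg with h0 | ⟨lam, hlam, hzero, hdim⟩
  · apply cplus_of_algK
    have hno : ∀ β : K, (bc K w).1.charpoly.IsRoot β → ¬ (bc K w).2.charpoly.IsRoot β := by
      intro β h1 h2
      have := hmem β h1 h2
      rw [h0] at this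
      exact Multiset.notMem_zero _ this
    refine (setting A).one_common (bc_mem A.carrier hw) 0 ?_ ?_
    · exact fun β h1 h2 => absurd h2 (hno β h1)
    · intro h1
      have h2 := hno 0 h1
      rw [Polynomial.rootMultiplicity_eq_zero h2]
      exact zero_le_one
  -- one common eigenvalue
  have hodd : ¬ Even Q.natDegree := by
    have h1 := Pool.Agent.Helper37.Sign.even_finrank A.pairM A.altM A.ndM
    rw [hdim] at h1
    exact Nat.even_add_one.mp h1
  have hQ' : ∀ x : ℚ, Q.eval x ≠ 0 := hQ.resolve_left hodd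
  have hcom : ∀ β : K, (bc K w).1.charpoly.IsRoot β → (bc K w).2.charpoly.IsRoot β → β = lam := by
    intro β h1 h2
    have := hmem β h1 h2
    rw [hlam, Multiset.mem_singleton] at this
    exact this
  by_cases hA : (eig w.2).count lam ≤ 1
  · apply cplus_of_algK
    refine (setting A).one_common (bc_mem A.carrier hw) lam hcom ?_
    intro _
    rw [bc_snd, rootMultiplicity_bc]
    exact hA
  -- the difficult case
  by_contra hC
  have hnot : ((1 : Module.End K (TensorProduct F K Vp)),
      (0 : Module.End K (TensorProduct F K Vm))) ∉ algK K A.carrier :=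
    fun h => hC (cplus_of_algK A h)
  have hmin : min ((eig w.1).count lam) ((eig w.2).count lam) = 1 := by
    have := congrArg (Multiset.count lam) hlam
    rwa [Multiset.count_inter, Multiset.count_singleton_self] at this
  have hc1 : (eig w.1).count lam = 1 := by omega
  have hlt : lam ∈ eig w.2 - eig w.1 := by rw [Multiset.mem_sub]; omega
  have hls : lam ∉ eig w.1 - eig w.2 := by rw [Multiset.mem_sub]; omega
  have hlam0 : lam ≠ 0 := by rintro rfl; exact hzero hlt
  obtain ⟨-, hQpol⟩ := zeta_parts w.1 w.2 s hs P Q hz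
  have hQlam : (Q.map (algebraMap ℚ K)).eval lam⁻¹ = 0 := by
    rw [hQpol]
    obtain ⟨r, hr⟩ := dvd_Ppol_of_mem _ lam hlt
    rw [hr, eval_mul]
    simp [hlam0]
  have hirr : ∀ r : ℚ, (r : K) ≠ 2 * lam := by
    intro r hr
    apply hQ' (2 / r)
    have h1 : lam⁻¹ = algebraMap ℚ K (2 / r) := by
      have h2 : algebraMap ℚ K r = 2 * lam := hr
      rw [map_div₀, h2]
      simp only [map_ofNat]
      field_simp
    rw [h1, eval_map_algebraMap, Polynomial.aeval_algebraMap_apply] at hQlam
    rw [← Polynomial.coe_aeval_eq_eval]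
    exact (map_eq_zero (algebraMap ℚ K)).mp hQlam
  -- rational factor of the characteristic polynomial on `Vp`
  have hsumdiff : ∀ n, 1 ≤ n → ∃ q : ℚ, ((eig w.1 - eig w.2).map (· ^ n)).sum -
      ((eig w.2 - eig w.1).map (· ^ n)).sum = (q : K) := by
    intro n hn
    refine ⟨s n, ?_⟩
    have e1 : ((eig w.1).map (· ^ n)).sum = ((eig w.1 - eig w.2).map (· ^ n)).sum +
        ((eig w.1 ∩ eig w.2).map (· ^ n)).sum := by
      rw [← Multiset.sum_add, ← Multiset.map_add, Multiset.sub_add_inter]
    have e2 : ((eig w.2).map (· ^ n)).sum = ((eig w.2 - eig w.1).map (· ^ n)).sum +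
        ((eig w.1 ∩ eig w.2).map (· ^ n)).sum := by
      rw [← Multiset.sum_add, ← Multiset.map_add, Multiset.inter_comm, Multiset.sub_add_inter]
    have e3 : ((eig w.1).map (· ^ n)).sum - ((eig w.2).map (· ^ n)).sum = ((s n : ℚ) : K) := by
      rw [← trace_pow, ← trace_pow, ← map_sub, hs n hn]
      simp
    rw [e1, e2] at e3
    linear_combination e3
  have hdisj1 : ∀ a ∈ eig w.1 - eig w.2, a ∉ eig w.2 - eig w.1 := by
    intro a ha hb
    rw [Multiset.mem_sub] at ha hb
    omega
  obtain ⟨p, hp⟩ := rational_of_disjoint _ _ hsumdiff hdisj1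
  obtain ⟨p2, hp2⟩ := rational_of_disjoint (eig w.2 - eig w.1) (eig w.1 - eig w.2) (by
    intro n hn
    obtain ⟨q, hq⟩ := hsumdiff n hn
    exact ⟨-q, by rw [Rat.cast_neg, ← hq]; ring⟩) (fun a ha hb => hdisj1 a hb ha)
  have hroot_iff : ∀ (t : Multiset K) (a : K), eval a ((t.map fun b => X - C b).prod) = 0 ↔
      a ∈ t := by
    intro t a
    have hne : ((t.map fun b => X - C b).prod : K[X]) ≠ 0 :=
      (Polynomial.monic_multiset_prod_of_monic t (fun b => X - C b)
        (fun b _ => monic_X_sub_C b)).ne_zero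
    have := Polynomial.mem_roots (a := a) hne
    rw [Polynomial.roots_multiset_prod_X_sub_C] at this
    exact this.symm
  have hplam : aeval lam p ≠ 0 := by
    rw [← eval_map_algebraMap, hp, Ne, hroot_iff]
    exact hls
  have hp2ne : p2 ≠ 0 := by
    rintro rfl
    rw [Polynomial.map_zero] at hp2
    exact (Polynomial.monic_multiset_prod_of_monic (eig w.2 - eig w.1) (fun b => X - C b)
        (fun b _ => monic_X_sub_C b)).ne_zero hp2.symm
  have hp2lam : aeval lam p2 = 0 := by
    rw [← eval_map_algebraMap, hp2, hroot_iff]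
    exact hlt
  have hint : IsIntegral ℚ lam := by
    rw [← isAlgebraic_iff_isIntegral]
    exact ⟨p2, hp2ne, hp2lam⟩
  have hcop : IsCoprime (minpoly ℚ lam) p := by
    refine ((minpoly.irreducible hint).coprime_iff_not_dvd).mpr fun hd => ?_
    obtain ⟨r, hr⟩ := hd
    apply hplam
    rw [hr, map_mul, minpoly.aeval, zero_mul]
  obtain ⟨b, a, hab⟩ := hcop
  set π : ℚ[X] := a * p with hπ
  have hπlam : aeval lam π = 1 := by
    have := congrArg (aeval lam) hab
    rw [map_add, map_mul, minpoly.aeval, mul_zero, zero_add, map_one] at this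
    exact this
  have hchar : (bc K w).1.charpoly = p.map (algebraMap ℚ K) * (X - C lam) := by
    rw [bc_fst, LinearMap.charpoly_baseChange, ← prod_eig, hp]
    have e1 : eig w.1 = (eig w.1 - eig w.2) + {lam} := by
      rw [← hlam, Multiset.sub_add_inter]
    conv_lhs => rw [e1]
    rw [Multiset.map_add, Multiset.prod_add, Multiset.map_singleton, Multiset.prod_singleton]
  have hdvd : (bc K w).1.charpoly ∣ π.map (algebraMap ℚ K) * (X - C lam) := by
    rw [hchar, hπ, Polynomial.map_mul]
    exact ⟨a.map (algebraMap ℚ K), by ring⟩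
  obtain ⟨w', hw', hadj⟩ := A.transpose w hw
  have hadj' : IsAdj A.pairP A.pairM w w' := hadj
  have hadj'' : IsAdj A.pairP A.pairM w' w :=
    ⟨fun x y => by rw [A.symmP, ← hadj.1, A.symmP], fun x y => by
      rw [A.altM, ← hadj.2, A.altM, neg_neg]⟩
  set πF : F[X] := π.map (algebraMap ℚ F) with hπF
  set y : Module.End F Vp × Module.End F Vm := aeval w' πF * (w + w') * aeval w πF with hy
  have hyA : y ∈ A.carrier :=
    A.carrier.mul_mem (A.carrier.mul_mem (aeval_rat_mem A hw' π) (A.carrier.add_mem hw hw'))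
      (aeval_rat_mem A hw π)
  have hysym : IsAdj A.pairP A.pairM y y := by
    have h1 := (hadj''.aeval πF).mul ((hadj'.add hadj'').mul (hadj'.aeval πF))
    have e1 : aeval w' πF * ((w + w') * aeval w πF) = y := by rw [hy, mul_assoc]
    have e2 : aeval w' πF * (w' + w) * aeval w πF = y := by rw [hy, add_comm w' w]
    rw [e1, e2] at h1
    exact h1
  have hπK : πF.map (algebraMap F K) = π.map (algebraMap ℚ K) := by
    rw [hπF, Polynomial.map_map]
    congr 1
  have hbcy : (bc K y).1 = aeval (bc K w').1 (π.map (algebraMap ℚ K)) *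
      ((bc K w).1 + (bc K w').1) * aeval (bc K w).1 (π.map (algebraMap ℚ K)) := by
    rw [hy, map_mul, map_mul, map_add, bc_aeval, bc_aeval, hπK, Prod.fst_mul, Prod.fst_mul,
      Prod.fst_add, aeval_fst, aeval_fst]
  have htr : ∀ n : ℕ, algebraMap F K (LinearMap.trace F Vp (y.1 ^ (n + 1))) =
      (2 * lam) ^ (n + 1) := by
    intro n
    have h1 := (setting A).trace_eq (bc_mem A.carrier hw) (bc_mem A.carrier hw')
      ⟨fun x y => bcForm_adj A.pairP w.1 w'.1 hadj.1 x y,
        fun x y => bcForm_adj A.pairM w.2 w'.2 hadj.2 x y⟩ lam hlam0 hcom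
      (by rw [bc_fst, rootMultiplicity_bc]; exact hc1) (π.map (algebraMap ℚ K))
      (by rw [eval_map_algebraMap]; exact hπlam) hdvd hnot n
    rw [← hbcy, bc_fst, ← LinearMap.baseChange_pow, LinearMap.trace_baseChange] at h1
    exact h1
  have heven : ∀ μ, Even ((eig y.2).count μ) := by
    intro μ
    have hset := setting A
    have h1 := even_rootMultiplicity (bcForm K A.pairM) hset.alt hset.ndC (y.2.baseChange K)
      (fun a b => bcForm_adj A.pairM y.2 y.2 hysym.2 a b) μ
    rwa [rootMultiplicity_bc] at h1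
  refine no_irrational (eig y.2) (2 * lam) heven hirr fun n => ?_
  obtain ⟨q, hq⟩ := A.trace_rat (y ^ (n + 1)) (A.carrier.pow_mem hyA (n + 1))
  refine ⟨q, ?_⟩
  rw [← htr, ← trace_pow, ← map_sub]
  rw [Prod.pow_fst, Prod.pow_snd] at hq
  rw [hq]
  simp

/-- **Orthosymplectic criteria for the sign conjecture.** -/
theorem result (A : DualCorrAlgebra F Vp Vm) : List.TFAE [
    A.CPlus,
    ∃ u ∈ A.carrier, A.Symmetric u ∧ SimpleCommon u.1.charpoly u.2.charpoly ∧
      ∃ w ∈ A.carrier, SimpleCommon w.2.charpoly w.1.charpoly,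
    ∃ w ∈ A.carrier, ∃ s : ℕ → ℚ, IsTraceSeq w s ∧ ∃ P Q : ℚ[X], IsZeta s P Q ∧
      finrank F Vp + finrank F Vm ≤ P.natDegree + Q.natDegree + 2 ∧
      (Even Q.natDegree ∨ ∀ x : ℚ, Q.eval x ≠ 0)] := by
  have hu : A.CPlus → ((2 : F) • (1 : Module.End F Vp), (1 : Module.End F Vm)) ∈ A.carrier := by
    intro h
    have h1 := A.carrier.add_mem h A.carrier.one_mem
    have e : ((1 : Module.End F Vp), (0 : Module.End F Vm)) + 1 =
        ((2 : F) • (1 : Module.End F Vp), (1 : Module.End F Vm)) := by
      ext1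
      · simp only [Prod.fst_add, Prod.fst_one]; rw [two_smul]
      · simp
    rwa [e] at h1
  tfae_have 1 → 2 := by
    intro h
    have hno : ∀ α : AlgebraicClosure F, aeval α ((2 : F) • (1 : Module.End F Vp)).charpoly = 0 →
        aeval α (1 : Module.End F Vm).charpoly = 0 → False := by
      intro α h1 h2
      have e1 := eq_of_root 2 h1
      have e2 := eq_of_root (V := Vm) (1 : F) (α := α) (by rwa [one_smul])
      rw [e1] at e2
      have : (2 : F) = 1 := (algebraMap F (AlgebraicClosure F)).injective e2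
      norm_num at this
    refine ⟨_, hu h, ⟨fun x y => by simp, fun x y => by simp⟩, ?_, _, hu h, ?_⟩
    · exact fun α h1 h2 => absurd h2 (fun h2 => hno α h1 h2)
    · exact fun α h1 h2 => absurd h1 (fun h1 => hno α h2 h1)
  tfae_have 2 → 1 := by
    rintro ⟨u, hu, hsym, h1, w, hw, h2⟩
    exact cplus_of_spectral A hu hw hsym h1 h2
  tfae_have 1 → 3 := by
    intro h
    refine ⟨_, hu h, fun n => 2 ^ n * finrank F Vp - finrank F Vm, ?_, ?_⟩
    · intro n _
      simp only [_root_.smul_pow, one_pow, map_smul, LinearMap.trace_one, smul_eq_mul]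
      push_cast; ring
    · have hd : ∀ (n : ℕ) (a : ℚ), a ≠ 0 → (Ppol (Multiset.replicate n a)).natDegree = n := by
        intro n a ha
        simp only [Ppol, Multiset.map_replicate, Multiset.prod_replicate]
        have : (1 - C a * X : ℚ[X]) = C (-a) * X + C 1 := by simp; ring
        rw [this, Polynomial.natDegree_pow, Polynomial.natDegree_linear (neg_ne_zero.mpr ha),
          mul_one]
      refine ⟨Ppol (Multiset.replicate (finrank F Vp) (2 : ℚ)),
        Ppol (Multiset.replicate (finrank F Vm) (1 : ℚ)), ⟨coeff_zero_Ppol _, coeff_zero_Ppol _,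
          ?_, ?_⟩, ?_, Or.inl ?_⟩
      · simp only [Ppol, Multiset.map_replicate, Multiset.prod_replicate]
        apply IsCoprime.pow
        refine ⟨-1, 2, ?_⟩
        have : (C (2:ℚ)) = 2 := rfl
        rw [this, C_1]; ring
      · have h1 := logderiv (Multiset.replicate (finrank F Vp) (2 : ℚ))
        have h2 := logderiv (Multiset.replicate (finrank F Vm) (1 : ℚ))
        have hS : PowerSeries.mk (fun n : ℕ => if n = 0 then (0:ℚ) else
            2 ^ n * finrank F Vp - finrank F Vm) =
            Tser (Multiset.replicate (finrank F Vp) (2 : ℚ)) -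
              Tser (Multiset.replicate (finrank F Vm) (1 : ℚ)) := by
          ext n
          simp only [Tser, map_sub, PowerSeries.coeff_mk, Multiset.map_replicate,
            Multiset.sum_replicate, one_pow]
          split_ifs
          · simp
          · simp [mul_comm]
        rw [hS]
        rw [Polynomial.coe_mul, Polynomial.coe_sub, Polynomial.coe_mul, Polynomial.coe_mul,
          ← PowerSeries.derivative_coe, ← PowerSeries.derivative_coe, Polynomial.coe_X, coe_Ppol,
          coe_Ppol]
        linear_combination Pser (Multiset.replicate (finrank F Vp) (2 : ℚ)) * h2 -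
          Pser (Multiset.replicate (finrank F Vm) (1 : ℚ)) * h1
      · rw [hd _ _ two_ne_zero, hd _ _ one_ne_zero]
        omega
      · rw [hd _ _ one_ne_zero]
        exact Pool.Agent.Helper37.Sign.even_finrank A.pairM A.altM A.ndM
  tfae_have 3 → 1 := by
    rintro ⟨w, hw, s, hs, P, Q, hz, hd, hQ⟩
    exact cplus_of_numeric A hw s hs P Q hz hd hQ
  tfae_finish

end Pool.Agent.Results.MP_56c18a_ag.Orthosymplectic
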