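import Pool.Agent.Helper37.Af.Main
import Pool.Agent.Helper37.Fc.PolyFun
import Pool.Agent.Helper37.Fd.Almost
import Pool.Agent.Helper37.Rc.Alg
import Pool.Agent.Helper37.Rc.Quad
import Pool.Agent.Helper37.Rc.Num

/-!
# MP_6cbef8_nt: one congruence modulo a large ideal suffices

`G` is a profinite group with finitely many open subgroups of each index (in the application the
Galois group of the maximal extension of `F` unramified outside a finite set of places), `D` a
subset whose closure has positive measure (the Frobenius elements of a set of places of positive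
density), `E` a finite extension of `ℚ_p`.  There is a finite subset `R` of `D`, depending only on
`G`, `D`, `E` and `n`, such that congruences between the Frobenius polynomials of `V` and of `T` (of
dimension `n`) at the elements of `R`, modulo ideals of large norm, force `V` to be potentially
contained in `T`.
-/

set_option autoImplicit false
open MeasureTheory Polynomial NumberField Pool.Agent.Helper27.FM Pool.Agent.Helper37.Af
  Pool.Agent.Helper37.Fc Pool.Agent.Helper37.Rc Pool.Agent.Helper37.Fd

namespace Pool.Agent.Results.MP_6cbef8_nt.ResidualCheck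

/-- `f` and `g` have a common root modulo an ideal of `𝓞 M` of norm larger than `b`: there are a
homomorphism from `𝓞 M` to a commutative ring `A`, with kernel of norm larger than `b`, and a
common root of (the images of) `f` and `g` in `A`. -/
def CommonRootModLarge {M : Type*} [Field M] [NumberField M] (f g : (𝓞 M)[X]) (b : ℝ) : Prop :=
  ∃ (A : Type) (_ : CommRing A) (φ : 𝓞 M →+* A) (z : A),
    b < (Ideal.absNorm (RingHom.ker φ) : ℝ) ∧ f.eval₂ φ z = 0 ∧ g.eval₂ φ z = 0

theorem result (p : ℕ) [hp : Fact p.Prime]
    -- the coefficient field, a finite extension of `ℚ_p`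
    {E : Type*} [NontriviallyNormedField E] [IsUltrametricDist E] [ProperSpace E]
    [NormedAlgebra ℚ_[p] E]
    -- a profinite group with finitely many open subgroups of each index, with a Haar measure
    {G : Type*} [Group G] [TopologicalSpace G] [IsTopologicalGroup G] [CompactSpace G]
    [TotallyDisconnectedSpace G] [MeasurableSpace G] [BorelSpace G]
    (μ : Measure G) [μ.IsHaarMeasure] [μ.Regular]
    (hfin : ∀ m : ℕ, {U : Subgroup G | IsOpen (U : Set G) ∧ U.index ≤ m}.Finite)
    -- a subset whose closure has positive measure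
    {D : Set G} (hD : μ (closure D) ≠ 0)
    -- the dimension of `T`
    (n : ℕ) :
    ∃ R : Set G, R ⊆ D ∧ R.Finite ∧
      ∀ (V : G →* GL (Fin 2) E) (T : G →* GL (Fin n) E) (M : Type) [Field M] [NumberField M]
        (ι : M →+* E) (f g : G → (𝓞 M)[X]) (c : G → ℝ),
        Continuous V → StronglyIrreducible V → Continuous T → Semisimple T →
        IdempotentGenerated p V T →
        -- the Frobenius polynomials of `V` and `T` at the elements of `R` are those of `f`, `g`
        (∀ r ∈ R, (V r : Matrix (Fin 2) (Fin 2) E).charpoly =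
          (f r).map (ι.comp (algebraMap (𝓞 M) M))) →
        (∀ r ∈ R, (T r : Matrix (Fin n) (Fin n) E).charpoly =
          (g r).map (ι.comp (algebraMap (𝓞 M) M))) →
        -- their complex roots are bounded by `c r`
        (∀ r ∈ R, 0 ≤ c r ∧ ∀ (σ : M →+* ℂ) (z : ℂ),
          (f r).eval₂ (σ.comp (algebraMap (𝓞 M) M)) z = 0 ∨
            (g r).eval₂ (σ.comp (algebraMap (𝓞 M) M)) z = 0 → ‖z‖ ≤ c r) →
        -- congruences modulo ideals of large norm
        (∀ r ∈ R, CommonRootModLarge (f r) (g r) ((2 * c r) ^ (2 * n * Module.finrank ℚ M))) →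
        PotentiallyContained V T := by
  obtain ⟨R, hRD, hRf, hR⟩ := almost_determination p E μ hfin D (Module.finrank E
    (MvPolynomial.restrictTotalDegree ((Fin 2 × Fin 2) ⊕ (Σ _ : Unit, Fin n × Fin n)) E (2 * n)))
  refine ⟨R, hRD, hRf, fun V T M _ _ ι f g c hV hirr hT hss hid hVf hTg hc hcong => ?_⟩
  have hE0 : CharZero E := charZero_of_injective_algebraMap (algebraMap ℚ_[p] E).injective
  obtain ⟨P, hP, hPe, hPn⟩ := exists_quad E n
  have hι : Function.Injective (ι.comp (algebraMap (𝓞 M) M)) :=
    ι.injective.comp (FaithfulSMul.algebraMap_injective (𝓞 M) M)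
  have hmonic : ∀ q : (𝓞 M)[X], (q.map (ι.comp (algebraMap (𝓞 M) M))).Monic → q.Monic :=
    fun q hq => monic_of_injective hι hq
  obtain ⟨F, S, hS, hfr, hSf, hF⟩ := exists_polyfun (J := Unit) (n := fun _ => n) (T := fun _ => T)
    hV (fun _ => hT) (2 * n) P hP
  have hr : ∀ r ∈ R, F r = 0 := by
    intro r hrR
    rw [hF, hPe]
    obtain ⟨A, _, φ, z, hb, h1, h2⟩ := hcong r hrR
    refine det_quad_eq_zero _ _ ?_
    have hfm : (f r).Monic := hmonic _ (by rw [← hVf r hrR]; exact Matrix.charpoly_monic _)
    have hgm : (g r).Monic := hmonic _ (by rw [← hTg r hrR]; exact Matrix.charpoly_monic _)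
    have hf2 : (f r).natDegree = 2 := by
      rw [← natDegree_map_eq_of_injective hι, ← hVf r hrR, Matrix.charpoly_natDegree_eq_dim,
        Fintype.card_fin]
    have hgn : (g r).natDegree = n := by
      rw [← natDegree_map_eq_of_injective hι, ← hTg r hrR, Matrix.charpoly_natDegree_eq_dim,
        Fintype.card_fin]
    rw [hVf r hrR, hTg r hrR]
    exact not_isCoprime_of_common_root hfm hgm hf2 hgn (hc r hrR).1
      (fun σ z hz => (hc r hrR).2 σ z (Or.inl hz)) (fun σ z hz => (hc r hrR).2 σ z (Or.inr hz))
      φ z h1 h2 hb ι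
  have hF0 := hR F S hS hfr hSf hr
  have hrel : PolynomiallyRelated μ V (fun _ : Unit => T) := by
    refine ⟨P, fun h0 => hD (measure_mono_null ?_ (measure_union_null hF0 h0))⟩
    intro g hg
    by_cases hfg : F g = 0
    · exact Or.inr ⟨by rw [← hF]; exact hfg, hPn (T g) (V g : Matrix (Fin 2) (Fin 2) E).det⟩
    · exact Or.inl ⟨hg, hfg⟩
  obtain ⟨j, hj⟩ := adOccurs_of_related p μ V hV hirr (fun _ : Unit => n) (fun _ => T)
    (fun _ => hT) hrel
  exact contained_of_adOccurs p hV hirr hT hss hid hj

end Pool.Agent.Results.MP_6cbef8_nt.ResidualCheck
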