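import Pool.Agent.Helper37.Mv.Dich

/-!
# MP_6cbef8_nt: a dichotomy for newforms and torsion fields

`V i` are strongly irreducible two-dimensional representations over a finite Galois extension `E`
of `ℚ_p`, none a twist of a Galois conjugate of another one (in the application `ρ_f` and its
conjugates by the automorphisms of `F`, so that `⊗ V i` is the `f`-part of the cohomology of a
Hilbert modular variety), and `T j` are finitely many representations over `ℚ_p` (Tate modules of
abelian varieties).  Either some `V i` is contained in some `T j` (over `E`) on an open subgroup, or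
the `V i` are jointly independent of the `T j`.  The first case holds as soon as for some `i` the
common kernel of the `T j` and the `V k`, `k ≠ i`, acts by scalars on `V i` on an open subgroup.
-/

set_option autoImplicit false
open Pool.Agent.Helper27.FM Pool.Agent.Helper37.Af Pool.Agent.Helper37.Fd Pool.Agent.Helper37.Mv

namespace Pool.Agent.Results.MP_6cbef8_nt.TorsionDichotomy

theorem result (p : ℕ) [hp : Fact p.Prime]
    -- the coefficient field, a finite Galois extension of `ℚ_p`
    {E : Type*} [NontriviallyNormedField E] [IsUltrametricDist E] [NormedAlgebra ℚ_[p] E]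
    [FiniteDimensional ℚ_[p] E] [IsGalois ℚ_[p] E]
    -- a profinite group
    {G : Type*} [Group G] [TopologicalSpace G] [IsTopologicalGroup G] [CompactSpace G]
    [TotallyDisconnectedSpace G]
    -- strongly irreducible representations, none a twist of a Galois conjugate of another one
    {ι : Type*} [Finite ι] (V : ι → G →* GL (Fin 2) E) (hV : ∀ i, Continuous (V i))
    (hirr : ∀ i, StronglyIrreducible (V i))
    (hne : ∀ i k, i ≠ k → ∀ τ : E ≃ₐ[ℚ_[p]] E, ¬ IsTwist (V i) (conjugate τ (V k)))
    -- finitely many representations over `ℚ_p`
    {J : Type*} [Finite J] (n : J → ℕ) (T : ∀ j, G →* GL (Fin (n j)) ℚ_[p])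
    (hT : ∀ j, Continuous (T j))
    (h : ∀ i j, ¬ AdOccurs (V i) (baseChange E (T j)) ∨ (Semisimple (baseChange E (T j)) ∧
      IdempotentGenerated p (V i) (baseChange E (T j)))) :
    List.TFAE [
      ∃ i j, PotentiallyContained (V i) (baseChange E (T j)),
      ∃ i, ∃ U : Subgroup G, IsOpen (U : Set G) ∧ ∀ g ∈ U, (∀ k, k ≠ i → V k g = 1) →
        (∀ j, T j g = 1) → ∃ c : E,
          (V i g : Matrix (Fin 2) (Fin 2) E) = c • (1 : Matrix (Fin 2) (Fin 2) E),
      ¬ JointlyIndependent V T] :=
  dichotomyM p V hV hirr hne n T hT h

end Pool.Agent.Results.MP_6cbef8_nt.TorsionDichotomy
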